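import Pool.Agent.U26.SG.Stm4

/-!
# Project SG, package NP: all pair correlations of the normalised family
-/

set_option autoImplicit false
open MeasureTheory Filter Topology Complex
open scoped ContDiff ENNReal

namespace Pool.Agent.U346.SG

open Pool.Agent.W745.RW
open Pool.Agent.Y265.RW
open Pool.Agent.N661.BR (MW)
open Pool.Agent.U26.SG

noncomputable section

lemma fd_dilc {F : ℂ → ℂ} (hF : Differentiable ℝ F) (c : ℂ) (s : ℝ) (z v : ℂ) :
    fderiv ℝ (fun z => c * F ((s : ℂ) * z)) z v = c * ((s : ℂ) * fderiv ℝ F ((s : ℂ) * z) v) := by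
  have h1 : HasFDerivAt (fun z : ℂ => (s : ℂ) * z) (s • ContinuousLinearMap.id ℝ ℂ) z := by
    have e : (fun z : ℂ => (s : ℂ) * z) = fun z : ℂ => s • z := by
      funext z
      rw [Complex.real_smul]
    rw [e]
    exact (hasFDerivAt_id z).const_smul s
  have h2 : HasFDerivAt (fun z => F ((s : ℂ) * z))
      ((fderiv ℝ F ((s : ℂ) * z)).comp (s • ContinuousLinearMap.id ℝ ℂ)) z :=
    (hF ((s : ℂ) * z)).hasFDerivAt.comp z h1
  have h3 := (h2.const_mul c).fderiv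
  rw [h3]
  simp

lemma dp_dil {F : ℂ → ℂ} (hF : Differentiable ℝ F) (c : ℂ) {s : ℝ} (hs : 0 < s) (z : ℂ) :
    Dp (1 / s) (fun z => c * F ((s : ℂ) * z)) z = c * Dp 1 F ((s : ℂ) * z) := by
  have hs' : (s : ℂ) ≠ 0 := by exact_mod_cast hs.ne'
  simp only [Dp, dx, dy]
  rw [fd_dilc hF, fd_dilc hF]
  push_cast
  field_simp

lemma dm_dil {F : ℂ → ℂ} (hF : Differentiable ℝ F) (c : ℂ) {s : ℝ} (hs : 0 < s) (z : ℂ) :
    Dm (1 / s) (fun z => c * F ((s : ℂ) * z)) z = c * Dm 1 F ((s : ℂ) * z) := by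
  have hs' : (s : ℂ) ≠ 0 := by exact_mod_cast hs.ne'
  simp only [Dm, dx, dy]
  rw [fd_dilc hF, fd_dilc hF]
  push_cast
  field_simp

lemma sol_one (f : MW) : Sol Set.univ 1 (fun z => f z) :=
  ⟨one_pos, f.2.1.contDiffOn, fun z _ => by rw [one_pow, one_mul]; exact f.2.2 z⟩

/-- the normalised family -/
def VF (f : MW) (t : ℕ → ℝ) (m : ℝ) (n : ℕ) (a : ℤ) (z : ℂ) : ℂ :=
  ((1 / √m : ℝ) : ℂ) * UF f t n a z

lemma famV (f : MW) (t : ℕ → ℝ) (m : ℝ) (ht : ∀ n, 0 < t n) :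
    Fam Set.univ (fun n => 1 / t n) (VF f t m) := by
  obtain ⟨w1, w2, w3, w4⟩ := Pool.Agent.W924.RW.WP.main Set.univ isOpen_univ 1 _ (sol_one f)
  have sm : ∀ a, ContDiff ℝ ∞ (W 1 f a) := fun a => contDiffOn_univ.1 (w1 a)
  have df : ∀ a, Differentiable ℝ (W 1 f a) := fun a => (sm a).differentiable (by simp)
  refine ⟨fun n a => ?_, fun n a z _ => ?_, fun n a z _ => ?_, fun n a z _ => ?_⟩
  · refine ContDiff.contDiffOn ?_
    exact contDiff_const.mul ((sm a).comp (contDiff_const.mul contDiff_id))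
  · have h1 := dp_dil (df a) ((1 / √m : ℝ) : ℂ) (ht n) z
    have h2 := w2 a ((t n : ℂ) * z) (Set.mem_univ _)
    have h3 : Dp (1 / t n) (VF f t m n a) z = ((1 / √m : ℝ) : ℂ) * Dp 1 (W 1 f a) ((t n : ℂ) * z) :=
      h1
    rw [h3]
    show _ = ((1 / √m : ℝ) : ℂ) * W 1 f (a + 1) ((t n : ℂ) * z)
    rw [← h2]
  · have h1 := dm_dil (df a) ((1 / √m : ℝ) : ℂ) (ht n) z
    have h2 := w3 a ((t n : ℂ) * z) (Set.mem_univ _)
    have h3 : Dm (1 / t n) (VF f t m n a) z = ((1 / √m : ℝ) : ℂ) * Dm 1 (W 1 f a) ((t n : ℂ) * z) :=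
      h1
    rw [h3]
    show _ = -(((1 / √m : ℝ) : ℂ) * W 1 f (a - 1) ((t n : ℂ) * z))
    rw [← mul_neg, ← h2]
  · have h2 := w4 a ((t n : ℂ) * z) (Set.mem_univ _)
    show (starRingEnd ℂ) (((1 / √m : ℝ) : ℂ) * W 1 f a ((t n : ℂ) * z)) =
      (-1) ^ a.natAbs * (((1 / √m : ℝ) : ℂ) * W 1 f (-a) ((t n : ℂ) * z))
    rw [map_mul, Complex.conj_ofReal]
    have h4 : (starRingEnd ℂ) (W 1 f a ((t n : ℂ) * z)) =
        (-1) ^ a.natAbs * W 1 f (-a) ((t n : ℂ) * z) := h2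
    rw [h4]; ring

/-- the limits of the pair correlations at `a = 0` -/
def RQ (m : ℝ) (q : ℕ → ℂ) (b : ℤ) : ℂ :=
  if 0 ≤ b then q b.natAbs / m else (-1) ^ b.natAbs * (starRingEnd ℂ) (q b.natAbs / m)

lemma RQ_nat (m : ℝ) (q : ℕ → ℂ) (k : ℕ) : RQ m q k = q k / m := by
  unfold RQ
  rw [if_pos (by positivity)]
  simp

lemma RQ_neg {m : ℝ} {q : ℕ → ℂ} (hm : 0 < m) (hq : q 0 = m) (k : ℕ) :
    RQ m q (-(k : ℤ)) = (-1) ^ k * (starRingEnd ℂ) (q k / m) := by
  have hm' : (m : ℂ) ≠ 0 := by exact_mod_cast hm.ne'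
  unfold RQ
  rcases Nat.eq_zero_or_pos k with rfl | hk
  · simp [hq, hm']
  · have : ¬ (0 : ℤ) ≤ -(k : ℤ) := by omega
    rw [if_neg this]
    simp

lemma pos_test : ∃ φ : ℂ → ℝ, TF Set.univ φ ∧ (∀ z, 0 ≤ φ z) ∧ 0 < ∫ z, φ z := by
  obtain ⟨ζ, hζ, hζ0, -, hζ1⟩ := cutoff isOpen_univ (isCompact_singleton (x := (0 : ℂ)))
    (Set.subset_univ _)
  refine ⟨ζ, hζ, hζ0, ?_⟩
  exact hζ.1.continuous.integral_pos_of_hasCompactSupport_nonneg_nonzero hζ.2.1
    (fun z => hζ0 z) (x := 0) (by rw [hζ1 0 rfl]; exact one_ne_zero)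

lemma L2b_zero {h : ℕ → ℝ} {U : ℕ → ℤ → ℂ → ℂ} (hF : Fam Set.univ h U)
    (h0 : ∀ φ, TF Set.univ φ → Tendsto (fun n => ∫ z, (φ z : ℂ) * (U n 0 z * U n 0 z)) atTop
      (𝓝 ((∫ z, φ z : ℝ) : ℂ))) : L2b Set.univ U 0 := by
  intro K hK hKB
  obtain ⟨ζ, hζ, hζ0, -, hζ1⟩ := cutoff isOpen_univ hK hKB
  have q := h0 ζ hζ
  have e : ∀ n, ∫ z, (ζ z : ℂ) * (U n 0 z * U n 0 z) =
      ((∫ z, ζ z * ‖U n 0 z‖ ^ 2 : ℝ) : ℂ) := by
    intro n
    rw [← integral_complex_ofReal]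
    refine integral_congr_ae (Eventually.of_forall fun z => ?_)
    have := Fam.nsq hF n 0 (Set.mem_univ z)
    simp only
    push_cast at this ⊢
    rw [this]
    simp
  simp_rw [e] at q
  have q' : Tendsto (fun n => ∫ z, ζ z * ‖U n 0 z‖ ^ 2) atTop (𝓝 (∫ z, ζ z)) := by
    have := (Complex.continuous_re.tendsto _).comp q
    simpa [Function.comp_def] using this
  refine ⟨(∫ z, ζ z) + 1, ?_⟩
  filter_upwards [q'.eventually (gt_mem_nhds (lt_add_one _))] with n hn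
  have i1 : Integrable (fun z => ζ z * ‖U n 0 z‖ ^ 2) :=
    int_mulr isOpen_univ hζ ((hF.smooth n 0).continuousOn.norm.pow 2)
  refine le_trans ?_ hn.le
  calc ∫ z in K, ‖U n 0 z‖ ^ 2 = ∫ z in K, ζ z * ‖U n 0 z‖ ^ 2 := by
        refine setIntegral_congr_fun hK.measurableSet (fun z hz => ?_)
        simp only [hζ1 z hz, one_mul]
    _ ≤ _ := by
        refine setIntegral_le_integral i1 (Eventually.of_forall fun z => ?_)
        have := hζ0 z
        simp only [Pi.zero_apply]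
        positivity

lemma unit_of {h : ℕ → ℝ} {U : ℕ → ℤ → ℂ → ℂ} (hU : Fam Set.univ h U) {κ : ℤ → ℤ → ℂ}
    (hk : ∀ a : ℤ, (-1) ^ a.natAbs * κ a (-a) = 1) (hp : Pair Set.univ U U κ) :
    Unit2 Set.univ U := by
  intro φ hφ a
  have h1 := (hp φ hφ a (-a)).const_mul ((-1) ^ a.natAbs)
  rw [← mul_assoc, hk, one_mul] at h1
  have h2 := (Complex.continuous_re.tendsto _).comp h1
  rw [Complex.ofReal_re] at h2
  refine h2.congr (fun n => ?_)
  have e : (-1) ^ a.natAbs * ∫ z, (φ z : ℂ) * (U n a z * U n (-a) z) =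
      ((∫ z, φ z * ‖U n a z‖ ^ 2 : ℝ) : ℂ) := by
    rw [← integral_const_mul, ← integral_complex_ofReal]
    refine integral_congr_ae (Eventually.of_forall fun z => ?_)
    simp only
    have := Fam.nsq hU n a (Set.mem_univ z)
    push_cast at this ⊢
    rw [this]; ring
  simp only [Function.comp_apply]
  rw [e, Complex.ofReal_re]

lemma pair_le {h : ℕ → ℝ} {U : ℕ → ℤ → ℂ → ℂ} (hU : Fam Set.univ h U) {κ : ℤ → ℤ → ℂ}
    (hp : Pair Set.univ U U κ) (hu : Unit2 Set.univ U) (a b : ℤ) : ‖κ a b‖ ≤ 1 := by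
  obtain ⟨φ, hφ, hφ0, hpos⟩ := pos_test
  have h1 := (hp φ hφ a b).norm
  have h2 : Tendsto (fun n => ((∫ z, φ z * ‖U n a z‖ ^ 2) + ∫ z, φ z * ‖U n b z‖ ^ 2) / 2) atTop
      (𝓝 (((∫ z, φ z) + ∫ z, φ z) / 2)) := ((hu φ hφ a).add (hu φ hφ b)).div_const 2
  have h3 : ∀ n, ‖∫ z, (φ z : ℂ) * (U n a z * U n b z)‖ ≤
      ((∫ z, φ z * ‖U n a z‖ ^ 2) + ∫ z, φ z * ‖U n b z‖ ^ 2) / 2 := by
    intro n
    have i1 : Integrable (fun z => φ z * ‖U n a z‖ ^ 2) :=
      int_mulr isOpen_univ hφ ((hU.smooth n a).continuousOn.norm.pow 2)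
    have i2 : Integrable (fun z => φ z * ‖U n b z‖ ^ 2) :=
      int_mulr isOpen_univ hφ ((hU.smooth n b).continuousOn.norm.pow 2)
    have i12 : Integrable (fun z => (φ z * ‖U n a z‖ ^ 2 + φ z * ‖U n b z‖ ^ 2) / 2) :=
      (i1.add i2).div_const 2
    have e : ((∫ z, φ z * ‖U n a z‖ ^ 2) + ∫ z, φ z * ‖U n b z‖ ^ 2) / 2 =
        ∫ z, (φ z * ‖U n a z‖ ^ 2 + φ z * ‖U n b z‖ ^ 2) / 2 := by
      rw [integral_div, integral_add i1 i2]
    rw [e]
    refine norm_integral_le_of_norm_le i12 (Eventually.of_forall fun z => ?_)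
    rw [norm_mul, norm_mul, Complex.norm_real, Real.norm_of_nonneg (hφ0 z)]
    have := mul_nonneg (hφ0 z) (sq_nonneg (‖U n a z‖ - ‖U n b z‖))
    nlinarith
  have h4 := le_of_tendsto_of_tendsto' h1 h2 h3
  rw [norm_mul, Complex.norm_real, Real.norm_of_nonneg hpos.le] at h4
  have h5 : ‖κ a b‖ * (∫ z, φ z) ≤ 1 * ∫ z, φ z := by linarith
  exact le_of_mul_le_mul_right h5 hpos

theorem t_NP : S_NP := by
  intro f t m q hm ht htl hq hyp
  have hm' : (m : ℂ) ≠ 0 := by exact_mod_cast hm.ne'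
  have hh : Tendsto (fun n => 1 / t n) atTop (𝓝 0) := by
    simp only [one_div]
    exact htl.inv_tendsto_atTop
  have hpos : ∀ n, 0 < 1 / t n := fun n => one_div_pos.2 (ht n)
  have hF := famV f t m ht
  have hc : ((1 / √m : ℝ) : ℂ) * ((1 / √m : ℝ) : ℂ) = 1 / m := by
    rw [← Complex.ofReal_mul, div_mul_div_comm, one_mul, Real.mul_self_sqrt hm.le]
    push_cast; rfl
  -- normalised hypothesis
  have hV : ∀ φ, TF Set.univ φ → ∀ k : ℕ, Tendsto
      (fun n => ∫ z, (φ z : ℂ) * (VF f t m n 0 z * VF f t m n k z)) atTop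
      (𝓝 (q k / m * (∫ z, φ z : ℝ))) := by
    intro φ hφ k
    have h1 := (hyp φ hφ k).const_mul (1 / (m : ℂ))
    have e1 : 1 / (m : ℂ) * (q k * (∫ z, φ z : ℝ)) = q k / m * (∫ z, φ z : ℝ) := by ring
    rw [e1] at h1
    refine h1.congr fun n => ?_
    rw [← integral_const_mul]
    refine integral_congr_ae (Eventually.of_forall fun z => ?_)
    simp only [VF]
    rw [← hc]; ring
  -- all the correlations with `a = 0`
  have h0 : ∀ φ, TF Set.univ φ → ∀ b : ℤ, Tendsto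
      (fun n => ∫ z, (φ z : ℂ) * (VF f t m n 0 z * VF f t m n b z)) atTop
      (𝓝 (RQ m q b * (∫ z, φ z : ℝ))) := by
    intro φ hφ b
    rcases Int.eq_nat_or_neg b with ⟨k, rfl | rfl⟩
    · rw [RQ_nat]; exact hV φ hφ k
    · rw [RQ_neg hm hq]
      have h1 := (((Complex.continuous_conj.tendsto _).comp (hV φ hφ k)).const_mul ((-1) ^ k))
      have e1 : (-1) ^ k * (starRingEnd ℂ) (q k / m * (∫ z, φ z : ℝ)) =
          (-1) ^ k * (starRingEnd ℂ) (q k / m) * (∫ z, φ z : ℝ) := by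
        rw [map_mul, Complex.conj_ofReal]; ring
      rw [e1] at h1
      refine h1.congr fun n => ?_
      simp only [Function.comp_apply]
      rw [← integral_conj, ← integral_const_mul]
      refine integral_congr_ae (Eventually.of_forall fun z => ?_)
      have c0 := hF.cj n 0 z (Set.mem_univ _)
      have ck := hF.cj n k z (Set.mem_univ _)
      simp only [Int.natAbs_zero, pow_zero, one_mul, neg_zero, Int.natAbs_natCast] at c0 ck
      simp only [map_mul, Complex.conj_ofReal]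
      rw [c0, ck]
      have := neg_one_sq k
      linear_combination ((φ z : ℂ) * VF f t m n 0 z * VF f t m n (-k) z) * this
  have hb0 : L2b Set.univ (VF f t m) 0 := by
    refine L2b_zero hF fun φ hφ => ?_
    have := hV φ hφ 0
    rw [hq, div_self hm', one_mul] at this
    exact this
  have hb := L2b.all isOpen_univ hpos hh hF hb0
  set κ' : ℤ → ℤ → ℂ := fun a b => (-1) ^ a.natAbs * RQ m q (a + b) with hκ'
  have hp : Pair Set.univ (VF f t m) (VF f t m) κ' := by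
    refine Pair.of_zero isOpen_univ hpos hh hF hF hb hb ?_ ?_
    · intro a b
      simp only [hκ']
      rw [natAbs_succ, show a + 1 + b = a + (b + 1) by ring]
      ring
    · intro φ hφ b
      simp only [hκ', Int.natAbs_zero, pow_zero, one_mul, zero_add]
      exact h0 φ hφ b
  have hR0 : RQ m q 0 = 1 := by
    have := RQ_nat m q 0
    rw [hq, div_self hm'] at this
    exact_mod_cast this
  have hsym : ∀ a b, κ' a b = κ' b a := by
    intro a b
    obtain ⟨φ, hφ, -, hpos'⟩ := pos_test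
    have h1 := hp φ hφ a b
    have h2 := hp φ hφ b a
    have h3 : (fun n => ∫ z, (φ z : ℂ) * (VF f t m n a z * VF f t m n b z)) =
        fun n => ∫ z, (φ z : ℂ) * (VF f t m n b z * VF f t m n a z) := by
      funext n
      refine integral_congr_ae (Eventually.of_forall fun z => ?_)
      simp only
      ring
    rw [h3] at h1
    have h4 := tendsto_nhds_unique h1 h2
    have h5 : ((∫ z, φ z : ℝ) : ℂ) ≠ 0 := by exact_mod_cast hpos'.ne'
    exact mul_right_cancel₀ h5 h4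
  have hodd : ∀ b : ℤ, ¬ Even b → RQ m q b = 0 := by
    intro b hb
    have h1 := hsym 0 b
    simp only [hκ', Int.natAbs_zero, pow_zero, one_mul, zero_add, add_zero] at h1
    have h2 : ((-1 : ℂ)) ^ b.natAbs = -1 := by
      refine Odd.neg_one_pow ?_
      rw [Int.natAbs_odd]
      exact Int.not_even_iff_odd.1 hb
    rw [h2] at h1
    have h3 : (2 : ℂ) * RQ m q b = 0 := by linear_combination h1
    rcases mul_eq_zero.1 h3 with h | h
    · norm_num at h
    · exact h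
  set κ : ℤ → ℤ → ℂ := fun a b => if Even (a + b) then (-1) ^ a.natAbs * RQ m q (a + b) else 0
    with hκ
  have hκκ : κ' = κ := by
    funext a b
    simp only [hκ', hκ]
    split_ifs with h
    · rfl
    · rw [hodd _ h, mul_zero]
  rw [hκκ] at hp
  have hk : ∀ a : ℤ, (-1) ^ a.natAbs * κ a (-a) = 1 := by
    intro a
    simp only [hκ, add_neg_cancel]
    rw [if_pos (by simp), hR0, mul_one, neg_one_sq]
  have hu := unit_of hF hk hp
  refine ⟨κ, RQ m q, ⟨fun a b => rfl, hR0, ?_, ?_⟩, hF, hu, hp⟩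
  · intro k
    by_cases hk' : Even k
    · have := pair_le hF hp hu 0 k
      simp only [hκ, zero_add, Int.natAbs_zero, pow_zero, one_mul, if_pos hk'] at this
      exact this
    · rw [hodd k hk', norm_zero]; exact zero_le_one
  · intro k
    rcases Int.eq_nat_or_neg k with ⟨j, rfl | rfl⟩
    · have e1 : -(2 * (j : ℤ)) = -((2 * j : ℕ) : ℤ) := by push_cast; ring
      have e2 : (2 * (j : ℤ)) = ((2 * j : ℕ) : ℤ) := by push_cast; ring
      rw [e1, RQ_neg hm hq, e2, RQ_nat, pow_mul]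
      simp
    · have e1 : -(2 * -(j : ℤ)) = ((2 * j : ℕ) : ℤ) := by push_cast; ring
      have e2 : (2 * -(j : ℤ)) = -((2 * j : ℕ) : ℤ) := by push_cast; ring
      rw [e1, RQ_nat, e2, RQ_neg hm hq, pow_mul]
      simp

end

end Pool.Agent.U346.SG
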